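import Pool.Agent.H98.CE.Targets

/-!
# Row UUS: sharp lower bound of the renewal mass
-/

set_option autoImplicit false

open MeasureTheory ProbabilityTheory Filter Topology

namespace Pool.Agent.H97.CEL

open Pool.Agent.H95 Pool.Agent.H95.Cop Pool.Agent.H98.CE

private theorem tail_sharp (α : ℝ) (hα : 0 < α) (K : PMF ℕ) (C : ℝ) (hC : 0 ≤ C) (n1 : ℕ)
    (hK : ∀ n : ℕ, n1 ≤ n → kk K n ≤ C * (n : ℝ) ^ (-(1 + α))) (n : ℕ) (hn : n1 ≤ n)
    (hn1 : 1 ≤ n) : tailK K (n + 1) ≤ C / α * (n : ℝ) ^ (-α) := by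
  have hfin : ∀ M : ℕ, ∑ i ∈ Finset.range M, kk K (i + (n + 1)) ≤
      C / α * ((n : ℝ) ^ (-α) - ((M + n : ℕ) : ℝ) ^ (-α)) := by
    intro M
    induction M with
    | zero => simp
    | succ M ih =>
      rw [Finset.sum_range_succ]
      have h1 := hK (M + (n + 1)) (by omega)
      have h2 := rpow_tele1 α hα (M + n) (by omega)
      have e : ((M + (n + 1) : ℕ) : ℝ) = ((M + n : ℕ) : ℝ) + 1 := by push_cast; ring
      have e' : ((M + 1 + n : ℕ) : ℝ) = ((M + n : ℕ) : ℝ) + 1 := by push_cast; ring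
      rw [e] at h1
      rw [e']
      have h3 : C * (((M + n : ℕ) : ℝ) + 1) ^ (-(1 + α)) ≤
          C / α * (((M + n : ℕ) : ℝ) ^ (-α) - (((M + n : ℕ) : ℝ) + 1) ^ (-α)) := by
        have h4 : C * (((M + n : ℕ) : ℝ) + 1) ^ (-(1 + α)) =
            C / α * (α * (((M + n : ℕ) : ℝ) + 1) ^ (-(1 + α))) := by
          field_simp
        rw [h4]
        exact mul_le_mul_of_nonneg_left h2 (by positivity)
      linarith
  have h1 : HasSum (fun i => kk K (i + (n + 1))) (tailK K (n + 1)) := by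
    have := (kk_hasSum K)
    rw [← hasSum_nat_add_iff' (n + 1)] at this
    exact this
  refine le_of_tendsto h1.tendsto_sum_nat (Filter.Eventually.of_forall (fun M => ?_))
  refine (hfin M).trans ?_
  apply mul_le_mul_of_nonneg_left _ (by positivity)
  have : 0 ≤ ((M + n : ℕ) : ℝ) ^ (-α) := Real.rpow_nonneg (Nat.cast_nonneg _) _
  linarith

private theorem sum_rpow_le' (α : ℝ) (hα : 0 < α) (hα1 : α < 1) (L : ℕ) :
    ∑ j ∈ Finset.range L, (j : ℝ) ^ (-α) ≤ (L : ℝ) ^ (1 - α) / (1 - α) := by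
  cases L with
  | zero => simp [Real.zero_rpow (show (1 - α) ≠ 0 by linarith)]
  | succ M =>
    rw [Finset.sum_range_succ', Nat.cast_zero, Real.zero_rpow (by linarith), add_zero]
    have h1 := sum_rpow_le α hα hα1 M
    have h2 : (M : ℝ) ^ (1 - α) / (1 - α) ≤ ((M + 1 : ℕ) : ℝ) ^ (1 - α) / (1 - α) := by
      apply div_le_div_of_nonneg_right _ (by linarith)
      apply Real.rpow_le_rpow (Nat.cast_nonneg _) _ (by linarith)
      push_cast
      linarith
    refine le_trans (le_of_eq ?_) (h1.trans h2)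
    refine Finset.sum_congr rfl fun j _ => ?_
    push_cast
    rfl

theorem pf_UUS : T_UUS := by
  intro α hα hα1 K hK0 cK hcK hK r hr
  have hU : ∀ L, 0 ≤ UU K L := fun L => Finset.sum_nonneg (fun n _ => uu_nonneg _ (kk_nonneg K) n)
  have h1α : 0 < 1 - α := by linarith
  set A : ℝ := α * (1 - α) / cK with hA
  have hA0 : 0 < A := by positivity
  rcases le_or_gt r 0 with hr0 | hr0
  · refine Eventually.of_forall fun n => ?_
    have h1 : 0 ≤ (n : ℝ) ^ α := Real.rpow_nonneg (Nat.cast_nonneg _) _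
    have h2 : r * A * (n : ℝ) ^ α ≤ 0 :=
      mul_nonpos_of_nonpos_of_nonneg (mul_nonpos_of_nonpos_of_nonneg hr0 hA0.le) h1
    exact h2.trans (hU n)
  -- 0 < r < 1
  set ε : ℝ := (1 - r) / 2 with hε
  have hε0 : 0 < ε := by rw [hε]; linarith
  have hrε : 0 < 1 - r * (1 + ε) := by
    rw [hε]
    nlinarith
  set D : ℝ := (1 + ε) * cK / α with hD
  have hD0 : 0 < D := by positivity
  obtain ⟨n1, hn1⟩ : ∃ n1 : ℕ, 1 ≤ n1 ∧ ∀ n : ℕ, n1 ≤ n →
      kk K n ≤ (1 + ε) * cK * (n : ℝ) ^ (-(1 + α)) := by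
    have h1 : ∀ᶠ n : ℕ in atTop, (K n).toReal * (n : ℝ) ^ (1 + α) < (1 + ε) * cK :=
      hK.eventually (gt_mem_nhds (by nlinarith))
    obtain ⟨n1, hn1⟩ := eventually_atTop.mp h1
    refine ⟨max n1 1, le_max_right _ _, fun n hn => ?_⟩
    have hn0 : (0 : ℝ) < n := by
      have : 1 ≤ n := (le_max_right _ _).trans hn
      exact_mod_cast this
    have h2 : 0 < (n : ℝ) ^ (1 + α) := Real.rpow_pos_of_pos hn0 _
    rw [Real.rpow_neg hn0.le, ← div_eq_mul_inv, le_div_iff₀ h2]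
    exact (hn1 n ((le_max_left _ _).trans hn)).le
  set C0 : ℝ := ∑ j ∈ Finset.range n1, tailK K (j + 1) with hC0
  have hC00 : 0 ≤ C0 := Finset.sum_nonneg fun j _ => tailK_nonneg K _
  have hsum : ∀ L : ℕ, ∑ j ∈ Finset.range L, tailK K (j + 1) ≤
      C0 + D * ((L : ℝ) ^ (1 - α) / (1 - α)) := by
    intro L
    have h1 : ∀ j : ℕ, tailK K (j + 1) ≤
        (if j < n1 then tailK K (j + 1) else 0) + D * (j : ℝ) ^ (-α) := by
      intro j
      have h0 : 0 ≤ (j : ℝ) ^ (-α) := Real.rpow_nonneg (Nat.cast_nonneg _) _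
      split_ifs with hj
      · have := mul_nonneg hD0.le h0
        linarith
      · rw [zero_add, hD]
        exact tail_sharp α hα K _ (by positivity) n1 hn1.2 j (by omega) (by omega)
    have h2 : ∑ j ∈ Finset.range L, tailK K (j + 1) ≤
        ∑ j ∈ Finset.range L, (if j < n1 then tailK K (j + 1) else 0) +
          D * ∑ j ∈ Finset.range L, (j : ℝ) ^ (-α) := by
      rw [Finset.mul_sum, ← Finset.sum_add_distrib]
      exact Finset.sum_le_sum fun j _ => h1 j
    have h3 : ∑ j ∈ Finset.range L, (if j < n1 then tailK K (j + 1) else 0) ≤ C0 := by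
      rw [← Finset.sum_filter]
      refine Finset.sum_le_sum_of_subset_of_nonneg ?_ fun j _ _ => tailK_nonneg K _
      intro j hj
      rw [Finset.mem_filter] at hj
      exact Finset.mem_range.2 hj.2
    have h4 := mul_le_mul_of_nonneg_left (sum_rpow_le' α hα hα1 L) hD0.le
    linarith
  -- the power of L
  have hlim : Tendsto (fun n : ℕ => (n : ℝ) ^ (1 - α)) atTop atTop :=
    (tendsto_rpow_atTop h1α).comp tendsto_natCast_atTop_atTop
  filter_upwards [hlim.eventually_ge_atTop (r * A * C0 / (1 - r * (1 + ε))),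
    eventually_ge_atTop 1] with L hL hL1
  have hL0 : (0 : ℝ) < L := by exact_mod_cast hL1
  have hLp : 0 < (L : ℝ) ^ (1 - α) := Real.rpow_pos_of_pos hL0 _
  have hLa : 0 < (L : ℝ) ^ α := Real.rpow_pos_of_pos hL0 _
  have hLL : (L : ℝ) ^ α * (L : ℝ) ^ (1 - α) = L := by
    rw [← Real.rpow_add hL0]
    simp
  set Sg : ℝ := C0 + D * ((L : ℝ) ^ (1 - α) / (1 - α)) with hSg
  have hSg0 : 0 < Sg := by positivity
  have h5 : r * A * (L : ℝ) ^ α * Sg ≤ UU K L * Sg := by
    have h6 : (L : ℝ) ≤ UU K L * Sg :=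
      (le_UU_mul K hK0 L).trans (mul_le_mul_of_nonneg_left (hsum L) (hU L))
    refine le_trans ?_ h6
    rw [div_le_iff₀ hrε] at hL
    have h7 : r * A * (L : ℝ) ^ α * Sg =
        (L : ℝ) ^ α * (r * A * C0) + r * (1 + ε) * ((L : ℝ) ^ α * (L : ℝ) ^ (1 - α)) := by
      rw [hSg, hA, hD]
      field_simp
    rw [h7]
    have h8 : (L : ℝ) ^ α * (r * A * C0) ≤
        (L : ℝ) ^ α * ((L : ℝ) ^ (1 - α) * (1 - r * (1 + ε))) :=
      mul_le_mul_of_nonneg_left hL hLa.le
    have h9 : (L : ℝ) ^ α * ((L : ℝ) ^ (1 - α) * (1 - r * (1 + ε))) =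
        ((L : ℝ) ^ α * (L : ℝ) ^ (1 - α)) * (1 - r * (1 + ε)) := by ring
    rw [h9, hLL] at h8
    rw [hLL]
    linarith
  exact le_of_mul_le_mul_right h5 hSg0

end Pool.Agent.H97.CEL
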