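import Pool.Agent.H98.CE.Targets

/-!
# Row VVS: sharp lower bound of the mass of the pairs
-/

set_option autoImplicit false

open MeasureTheory ProbabilityTheory Filter Topology

namespace Pool.Agent.H97.CEL

open Pool.Agent.H95 Pool.Agent.H95.Cop Pool.Agent.H98.CE
open Pool.Agent.H55.CG (VV)

private theorem VV_eq (K : PMF ℕ) (l : ℕ) :
    VV K l = ∑ i ∈ Finset.range l, UU K (i + 1) := by
  unfold VV
  rw [← Finset.sum_range_reflect]
  refine Finset.sum_congr rfl fun y hy => ?_
  rw [Finset.mem_range] at hy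
  rw [Finset.sum_Ico_eq_sum_range]
  unfold UU
  have e1 : l - (l - 1 - y) = y + 1 := by omega
  rw [e1]
  refine Finset.sum_congr rfl fun z _ => ?_
  congr 1
  omega

private theorem sum_rpow_ge (α : ℝ) (hα : 0 < α) (l : ℕ) :
    (l : ℝ) ^ (1 + α) / (1 + α) ≤ ∑ i ∈ Finset.range l, ((i + 1 : ℕ) : ℝ) ^ α := by
  have h1α : 0 < 1 + α := by linarith
  induction l with
  | zero => simp [Real.zero_rpow (show 1 + α ≠ 0 by linarith)]
  | succ n ih =>
    rw [Finset.sum_range_succ]
    set t : ℝ := ((n + 1 : ℕ) : ℝ) with ht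
    have hn0 : (0 : ℝ) ≤ n := Nat.cast_nonneg n
    have htn : t = (n : ℝ) + 1 := by rw [ht]; push_cast; ring
    have ht0 : 0 < t := by linarith
    have h1 : (n : ℝ) = t * (1 + (-(1 / t))) := by
      field_simp
      linarith
    have h2 : 0 ≤ 1 + (-(1 / t)) := by
      have : 1 / t ≤ 1 := by rw [div_le_one ht0]; linarith
      linarith
    have h3 : (n : ℝ) ^ (1 + α) = t ^ (1 + α) * (1 + (-(1 / t))) ^ (1 + α) := by
      rw [h1, Real.mul_rpow ht0.le h2]
    have h5 : 1 + (1 + α) * (-(1 / t)) ≤ (1 + (-(1 / t))) ^ (1 + α) :=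
      one_add_mul_self_le_rpow_one_add (by linarith) (by linarith)
    have h8 : 0 < t ^ (1 + α) := Real.rpow_pos_of_pos ht0 _
    have h6 : t ^ (1 + α) = t ^ α * t := by
      rw [add_comm, Real.rpow_add ht0, Real.rpow_one]
    have h7 := mul_le_mul_of_nonneg_left h5 h8.le
    rw [← h3] at h7
    have h9 : t ^ (1 + α) * (1 + (1 + α) * (-(1 / t))) = t ^ (1 + α) - (1 + α) * t ^ α := by
      rw [mul_add, mul_one, h6]
      field_simp
      ring
    rw [h9] at h7
    have h10 : t ^ (1 + α) / (1 + α) ≤ (n : ℝ) ^ (1 + α) / (1 + α) + t ^ α := by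
      rw [div_add' _ _ _ h1α.ne', div_le_div_iff_of_pos_right h1α]
      linarith
    linarith

theorem pf_VVS (hUUS : T_UUS) : T_VVS := by
  intro α hα hα1 K hK0 cK hcK hK r hr
  have hU : ∀ L, 0 ≤ UU K L := fun L => Finset.sum_nonneg (fun n _ => uu_nonneg _ (kk_nonneg K) n)
  have h1α : 0 < 1 - α := by linarith
  have h1α' : 0 < 1 + α := by linarith
  set A : ℝ := α * (1 - α) / cK with hA
  have hA0 : 0 < A := by positivity
  have hAe : α * (1 - α) / (cK * (1 + α)) = A / (1 + α) := by
    rw [hA, div_div]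
  rw [hAe]
  set r' : ℝ := (max r 0 + 1) / 2 with hr'
  have hm : max r 0 < 1 := max_lt hr one_pos
  have hr'1 : r' < 1 := by rw [hr']; linarith
  have hr'r : r < r' := by
    have := le_max_left r 0
    rw [hr']
    linarith
  have hr'0 : 0 < r' := by
    have := le_max_right r 0
    rw [hr']
    linarith
  obtain ⟨n1, hn1⟩ := eventually_atTop.1 (hUUS α hα hα1 K hK0 cK hcK hK r' hr'1)
  set B : ℝ := r' * A * (n1 : ℝ) ^ α with hB
  have hB0 : 0 ≤ B := by positivity
  have hlow : ∀ l : ℕ, r' * A * ((l : ℝ) ^ (1 + α) / (1 + α)) - n1 * B ≤ VV K l := by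
    intro l
    rw [VV_eq]
    have h1 : ∀ i : ℕ, r' * A * ((i + 1 : ℕ) : ℝ) ^ α - (if i < n1 then B else 0) ≤
        UU K (i + 1) := by
      intro i
      split_ifs with hi
      · have h2 : ((i + 1 : ℕ) : ℝ) ^ α ≤ (n1 : ℝ) ^ α := by
          apply Real.rpow_le_rpow (Nat.cast_nonneg _) _ hα.le
          exact_mod_cast hi
        have h3 := mul_le_mul_of_nonneg_left h2 (show 0 ≤ r' * A by positivity)
        have h4 := hU (i + 1)
        linarith
      · have := hn1 (i + 1) (by omega)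
        linarith
    have h2 : ∑ i ∈ Finset.range l, (r' * A * ((i + 1 : ℕ) : ℝ) ^ α -
        (if i < n1 then B else 0)) ≤ ∑ i ∈ Finset.range l, UU K (i + 1) :=
      Finset.sum_le_sum fun i _ => h1 i
    rw [Finset.sum_sub_distrib, ← Finset.mul_sum] at h2
    have h3 : ∑ i ∈ Finset.range l, (if i < n1 then B else 0) ≤ n1 * B := by
      rw [← Finset.sum_filter]
      refine le_trans (Finset.sum_le_sum_of_subset_of_nonneg (t := Finset.range n1) ?_
        fun j _ _ => hB0) ?_
      · intro j hj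
        rw [Finset.mem_filter] at hj
        exact Finset.mem_range.2 hj.2
      · rw [Finset.sum_const, Finset.card_range, nsmul_eq_mul]
    have h4 := mul_le_mul_of_nonneg_left (sum_rpow_ge α hα l) (show 0 ≤ r' * A by positivity)
    linarith
  have hlim : Tendsto (fun n : ℕ => (n : ℝ) ^ (1 + α)) atTop atTop :=
    (tendsto_rpow_atTop h1α').comp tendsto_natCast_atTop_atTop
  have hc : 0 < (r' - r) * A / (1 + α) := by
    have : 0 < r' - r := by linarith
    positivity
  filter_upwards [hlim.eventually_ge_atTop (n1 * B / ((r' - r) * A / (1 + α)))] with l hl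
  rw [div_le_iff₀ hc] at hl
  have h1 := hlow l
  have h2 : (l : ℝ) ^ (1 + α) * ((r' - r) * A / (1 + α)) =
      r' * A * ((l : ℝ) ^ (1 + α) / (1 + α)) - r * (A / (1 + α)) * (l : ℝ) ^ (1 + α) := by
    field_simp
  linarith

end Pool.Agent.H97.CEL
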